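import Pool.Agent.H90.BP.Mat
import Pool.Agent.H29.BP.CDef

/-!
# [H90 BP FEW] few crossings at every vertex

`ι` = the crossings of `D` (a finite set), `t p` = the set of the `v` with `p ∈ D.arc e` for an edge `e` of `G` with `v ∈ e`. `D` is
optimal, so the two edges which cross in `p` have no common end (`opt_x`, or `opt_adj`) and `4 ≤ |t p|`. For a finite set `X` of
crossings: `4 |X| ≤ ∑_{p ∈ X} |t p| = ∑_{v ∈ N} #{p ∈ X | v ∈ t p} ≤ c |N|`, `N` the union of the `t p`. Let
`d = (c - 4) * CR G / c`. Hall's theorem (`Finset.all_card_le_biUnion_card_iff_exists_injective`) for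
`t' p = (t p).map inl ∪ univ.map inr`, subsets of `V ⊕ Fin d`: `|X| ≤ |N| + d`, because `c (|X| - |N|) ≤ (c - 4) |X| ≤ (c - 4) CR G`.
The injective choice gives `M` (the crossings whose value is `inl v`, `φ p = v`) with `CR G ≤ |M| + d`, and `match_bound` gives
`CR2 G ≤ d`.
-/

set_option autoImplicit false

open Set
open scoped Classical

noncomputable section

namespace H90.BX

open H29.BP

private theorem t_card {V : Type} [Fintype V] {G : SimpleGraph V} (D : Drawing G) (hD : D.cr = CR G)
    {p : ℂ} (hp : p ∈ D.crossings) :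
    4 ≤ (Finset.univ.filter fun v : V => ∃ e ∈ G.edgeSet, v ∈ e ∧ p ∈ D.arc e).card := by
  obtain ⟨e, he, f, hf, hef, hx⟩ := hp
  have hno : ∀ u, u ∈ e → u ∉ f := by
    intro u hue huf
    obtain ⟨v, rfl⟩ := Sym2.mem_iff_exists.1 hue
    obtain ⟨w, rfl⟩ := Sym2.mem_iff_exists.1 huf
    rw [SimpleGraph.mem_edgeSet] at he hf
    have h1 := opt_adj D hD he hf (fun h => hef (by rw [h]))
    rw [h1] at hx
    exact hx
  revert he hf hx hno hef
  induction e using Sym2.ind with
  | _ a b =>
    induction f using Sym2.ind with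
    | _ a' b' =>
      intro he hf hef hx hno
      have hab : a ≠ b := by
        rw [SimpleGraph.mem_edgeSet] at he
        exact he.ne
      have hab' : a' ≠ b' := by
        rw [SimpleGraph.mem_edgeSet] at hf
        exact hf.ne
      have h1 := hno a (Sym2.mem_mk_left a b)
      have h2 := hno b (Sym2.mem_mk_right a b)
      rw [Sym2.mem_iff, not_or] at h1 h2
      have h3 : ({a, b, a', b'} : Finset V).card = 4 := by
        rw [Finset.card_insert_of_notMem, Finset.card_insert_of_notMem,
          Finset.card_insert_of_notMem, Finset.card_singleton]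
        · simpa using hab'
        · simp only [Finset.mem_insert, Finset.mem_singleton, not_or]
          exact h2
        · simp only [Finset.mem_insert, Finset.mem_singleton, not_or]
          exact ⟨hab, h1⟩
      rw [← h3]
      apply Finset.card_le_card
      intro v hv
      rw [Finset.mem_filter]
      refine ⟨Finset.mem_univ _, ?_⟩
      simp only [Finset.mem_insert, Finset.mem_singleton] at hv
      rcases hv with rfl | rfl | rfl | rfl
      · exact ⟨_, he, Sym2.mem_mk_left _ _, hx.1.1⟩
      · exact ⟨_, he, Sym2.mem_mk_right _ _, hx.1.1⟩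
      · exact ⟨_, hf, Sym2.mem_mk_left _ _, hx.1.2⟩
      · exact ⟨_, hf, Sym2.mem_mk_right _ _, hx.1.2⟩

private theorem empty_CR {V : Type} [IsEmpty V] (G : SimpleGraph V) : CR G = 0 := by
  obtain ⟨D⟩ := exists_drawing G
  have h1 : D.crossings = ∅ := by
    rw [Set.eq_empty_iff_forall_notMem]
    rintro p ⟨e, he, -⟩
    revert he
    induction e using Sym2.ind with
    | _ a b => exact (IsEmpty.false a).elim
  have h2 : CR G ≤ D.cr := Nat.sInf_le ⟨D, rfl⟩
  rw [Drawing.cr, h1, Set.ncard_empty] at h2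
  omega

theorem few {V : Type} [Finite V] {G : SimpleGraph V} (D : Drawing G) (hD : D.cr = CR G) (c : ℕ)
    (hc : 4 ≤ c)
    (h : ∀ v : V, {p ∈ D.crossings | ∃ e ∈ G.edgeSet, v ∈ e ∧ p ∈ D.arc e}.ncard ≤ c) :
    c * CR2 G ≤ (c - 4) * CR G := by
  rcases isEmpty_or_nonempty V with hV | hV
  · have h1 : CR2 G ≤ CR G + CR (⊥ : SimpleGraph V) :=
      Nat.sInf_le ⟨G, ⊥, disjoint_bot_right, sup_bot_eq G, rfl⟩
    rw [empty_CR, empty_CR] at h1
    have h2 : CR2 G = 0 := by omega
    rw [h2, mul_zero]
    exact Nat.zero_le _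
  obtain ⟨v0⟩ := hV
  have := Fintype.ofFinite V
  set S : Finset ℂ := D.crossings_finite.toFinset with hS
  have hmS : ∀ p, p ∈ S ↔ p ∈ D.crossings := fun p => by rw [hS, Set.Finite.mem_toFinset]
  have hSc : S.card = CR G := by
    rw [← hD, Drawing.cr, hS, Set.ncard_eq_toFinset_card _ D.crossings_finite]
  let t : ℂ → Finset V := fun p => Finset.univ.filter fun v : V => ∃ e ∈ G.edgeSet, v ∈ e ∧ p ∈ D.arc e
  have hcount : ∀ X : Finset ℂ, X ⊆ S → X.card * 4 ≤ (X.biUnion t).card * c := by
    intro X hX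
    refine Finset.card_mul_le_card_mul (fun p v => v ∈ t p) ?_ ?_
    · intro p hp
      have h1 : t p ⊆ (X.biUnion t).bipartiteAbove (fun p v => v ∈ t p) p := by
        intro v hv
        rw [Finset.mem_bipartiteAbove]
        exact ⟨Finset.mem_biUnion.2 ⟨p, hp, hv⟩, hv⟩
      exact (t_card D hD ((hmS p).1 (hX hp))).trans (Finset.card_le_card h1)
    · intro v hv
      refine le_trans ?_ (h v)
      rw [← Set.ncard_coe_finset]
      apply Set.ncard_le_ncard
      · intro p hp
        rw [Finset.mem_coe, Finset.mem_bipartiteBelow] at hp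
        exact ⟨(hmS p).1 (hX hp.1), (Finset.mem_filter.1 hp.2).2⟩
      · exact D.crossings_finite.subset fun p hp => hp.1
  obtain ⟨k, rfl⟩ : ∃ k, c = k + 4 := ⟨c - 4, by omega⟩
  rw [Nat.add_sub_cancel]
  set d : ℕ := k * CR G / (k + 4) with hd
  let t' : S → Finset (V ⊕ Fin d) := fun p => (t p).disjSum Finset.univ
  have hall : ∀ s : Finset S, s.card ≤ (s.biUnion t').card := by
    intro s
    rcases s.eq_empty_or_nonempty with rfl | hs
    · simp
    set X : Finset ℂ := s.map (Function.Embedding.subtype _) with hX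
    have hXc : X.card = s.card := Finset.card_map _
    have hXS : X ⊆ S := by
      intro p hp
      rw [hX, Finset.mem_map] at hp
      obtain ⟨q, -, rfl⟩ := hp
      exact q.2
    have h1 : ((X.biUnion t).disjSum (Finset.univ : Finset (Fin d))) ⊆ s.biUnion t' := by
      intro y hy
      rw [Finset.mem_disjSum] at hy
      rw [Finset.mem_biUnion]
      rcases hy with ⟨v, hv, rfl⟩ | ⟨i, -, rfl⟩
      · obtain ⟨p, hp, hvp⟩ := Finset.mem_biUnion.1 hv
        rw [hX, Finset.mem_map] at hp
        obtain ⟨q, hq, rfl⟩ := hp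
        exact ⟨q, hq, Finset.mem_disjSum.2 (Or.inl ⟨v, hvp, rfl⟩)⟩
      · obtain ⟨q, hq⟩ := hs
        exact ⟨q, hq, Finset.mem_disjSum.2 (Or.inr ⟨i, Finset.mem_univ _, rfl⟩)⟩
    have h2 := Finset.card_le_card h1
    rw [Finset.card_disjSum, Finset.card_univ, Fintype.card_fin] at h2
    refine le_trans ?_ h2
    have h3 := hcount X hXS
    have h4 : X.card ≤ CR G := by
      rw [← hSc]
      exact Finset.card_le_card hXS
    rw [← hXc]
    have h5 : X.card - (X.biUnion t).card ≤ d := by
      rw [hd, Nat.le_div_iff_mul_le (by omega)]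
      rcases le_total X.card (X.biUnion t).card with h6 | h6
      · rw [Nat.sub_eq_zero_of_le h6, zero_mul]
        exact Nat.zero_le _
      · obtain ⟨j, hj⟩ := Nat.exists_eq_add_of_le h6
        rw [hj] at h3 h4 ⊢
        rw [Nat.add_sub_cancel_left]
        nlinarith
    omega
  obtain ⟨f, hfi, hft⟩ := (Finset.all_card_le_biUnion_card_iff_exists_injective t').1 hall
  set A : Finset S := Finset.univ.filter fun x => ∃ v, f x = Sum.inl v with hA
  set B : Finset S := Finset.univ.filter fun x => ¬ ∃ v, f x = Sum.inl v with hB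
  have hAB : A.card + B.card = CR G := by
    rw [← hSc, ← Fintype.card_coe S, ← Finset.card_univ]
    exact Finset.card_filter_add_card_filter_not _
  have hBd : B.card ≤ d := by
    have h1 : B.card ≤ (Finset.univ.map (Function.Embedding.inr : Fin d ↪ V ⊕ Fin d)).card := by
      apply Finset.card_le_card_of_injOn f
      · intro x hx
        rw [Finset.mem_coe, hB, Finset.mem_filter] at hx
        rw [Finset.mem_coe, Finset.mem_map]
        rcases hfx : f x with v | i
        · exact (hx.2 ⟨v, hfx⟩).elim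
        · exact ⟨i, Finset.mem_univ _, rfl⟩
      · exact hfi.injOn
    rw [Finset.card_map, Finset.card_univ, Fintype.card_fin] at h1
    exact h1
  set M : Set ℂ := ((A.map (Function.Embedding.subtype _) : Finset ℂ) : Set ℂ) with hM
  have hMc : M.ncard = A.card := by
    rw [hM, Set.ncard_coe_finset, Finset.card_map]
  have hmM : ∀ p, p ∈ M → ∃ hp : p ∈ S, ∃ v, f ⟨p, hp⟩ = Sum.inl v := by
    intro p hp
    rw [hM, Finset.mem_coe, Finset.mem_map] at hp
    obtain ⟨q, hq, rfl⟩ := hp
    rw [hA, Finset.mem_filter] at hq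
    exact ⟨q.2, hq.2⟩
  let φ : ℂ → V := fun p => if hp : p ∈ S then Sum.elim id (fun _ => v0) (f ⟨p, hp⟩) else v0
  have hφ : ∀ p (hp : p ∈ S) v, f ⟨p, hp⟩ = Sum.inl v → φ p = v := by
    intro p hp v hv
    show (if hp : p ∈ S then Sum.elim id (fun _ => v0) (f ⟨p, hp⟩) else v0) = v
    rw [dif_pos hp, hv]
    rfl
  have hb := match_bound D M (fun p hp => by
      obtain ⟨hpS, -⟩ := hmM p hp
      exact (hmS p).1 hpS) φ (by
      intro p hp q hq hpq
      obtain ⟨hp1, v, hv⟩ := hmM p hp
      obtain ⟨hq1, w, hw⟩ := hmM q hq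
      rw [hφ p hp1 v hv, hφ q hq1 w hw] at hpq
      have h1 := hfi (hv.trans (by rw [hpq, hw]) : f ⟨p, hp1⟩ = f ⟨q, hq1⟩)
      exact congrArg Subtype.val h1) (by
      intro p hp
      obtain ⟨hp1, v, hv⟩ := hmM p hp
      rw [hφ p hp1 v hv]
      have h1 := hft ⟨p, hp1⟩
      rw [hv] at h1
      have h2 : v ∈ t p := by
        rcases Finset.mem_disjSum.1 h1 with ⟨w, hw, hwv⟩ | ⟨i, -, hi⟩
        · rw [← Sum.inl_injective hwv]
          exact hw
        · cases hi
      exact (Finset.mem_filter.1 h2).2)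
  rw [hMc, hD] at hb
  have h7 : CR2 G ≤ d := by omega
  calc (k + 4) * CR2 G ≤ (k + 4) * d := Nat.mul_le_mul_left _ h7
    _ ≤ k * CR G := Nat.mul_div_le _ _

end H90.BX
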