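import Pool.Agent.H29.BP.Opt

/-!
# [H90 BP GEO] non-interleaving edges can be drawn without crossings

`outer`: vertices `v` at the points `x v + (x v) ^ 2 * I` of the parabola, edges as segments. For `a < b` the point with real part
`t` of the segment from `P a` to `P b` (`P a = a + a ^ 2 * I`) has imaginary part `t ^ 2 + (t - a) * (b - t)`, `a ≤ t ≤ b`. So a
common point of the segments `a b` and `c d`, `a < b`, `c < d`, satisfies `(t - a) * (b - t) = (t - c) * (d - t)`. If the two edges
do not interleave then `b ≤ c` or `d ≤ a` (then `t = b = c` or `t = d = a`), or one interval contains the other, say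
`a ≤ c < d ≤ b`: `(c - a) * (b - t) + (t - c) * (b - d) = 0` with both terms `≥ 0`, so the common point is a common end unless the
edges are equal. So two different edges have at most common ends in common (at most one), no vertex lies on an edge of which it is no
end (the same with a degenerate segment: `(t - a) * (b - t) = 0`), the drawing has no crossings, `X` is empty, `CR F = 0`
(`Nat.sInf_le`). `isArc` of a segment and `Sym2` lift as in H29/BP/Exist.lean (`exists_drawing`).
-/

set_option autoImplicit false

open Set
open scoped Classical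

noncomputable section

namespace H90.BX

open H29.BP

/-- no two edges of `F` interleave in the order given by `x` -/
def NonInt {V : Type} (F : SimpleGraph V) (x : V → ℝ) : Prop :=
  ∀ a b c d : V, F.Adj a b → F.Adj c d → ¬ (x a < x c ∧ x c < x b ∧ x b < x d)

/-- the point of the parabola -/
def gP (a : ℝ) : ℂ := ⟨a, a ^ 2⟩

theorem geo_seg {a b : ℝ} (hab : a < b) {p : ℂ} (hp : p ∈ segment ℝ (gP a) (gP b)) :
    a ≤ p.re ∧ p.re ≤ b ∧ p.im = p.re ^ 2 + (p.re - a) * (b - p.re) := by
  obtain ⟨r, s, hr, hs, hrs, rfl⟩ := hp
  have h1 : r = 1 - s := by linarith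
  subst h1
  have e1 : ((1 - s) • gP a + s • gP b).re = (1 - s) * a + s * b := by
    simp [gP]
  have e2 : ((1 - s) • gP a + s • gP b).im = (1 - s) * a ^ 2 + s * b ^ 2 := by
    simp [gP]
  rw [e1, e2]
  refine ⟨by nlinarith, by nlinarith, by ring⟩

theorem geo_main {a b c d : ℝ} (hab : a < b) (hcd : c < d) (h1 : ¬ (a < c ∧ c < b ∧ b < d))
    (h2 : ¬ (c < a ∧ a < d ∧ d < b)) (hne : ¬ (a = c ∧ b = d)) {p : ℂ}
    (hp : p ∈ segment ℝ (gP a) (gP b)) (hp' : p ∈ segment ℝ (gP c) (gP d)) :
    p = gP a ∨ p = gP b := by
  obtain ⟨k1, k2, k3⟩ := geo_seg hab hp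
  obtain ⟨l1, l2, l3⟩ := geo_seg hcd hp'
  have ht : p.re = a ∨ p.re = b := by
    rcases le_or_gt b c with h | h
    · right; linarith
    rcases le_or_gt d a with h' | h'
    · left; linarith
    rcases lt_trichotomy a c with hac | hac | hac
    · right
      have hdb : d ≤ b := by
        by_contra hcon
        exact h1 ⟨hac, h, not_le.1 hcon⟩
      have e : (c - a) * (b - p.re) + (p.re - c) * (b - d) = 0 := by
        have e1 : (p.re - a) * (b - p.re) = (p.re - c) * (d - p.re) := by linarith
        linear_combination e1
      have e2 : 0 ≤ (p.re - c) * (b - d) := mul_nonneg (by linarith) (by linarith)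
      have e3 : (c - a) * (b - p.re) ≤ 0 := by linarith
      have e4 : 0 ≤ (c - a) * (b - p.re) := mul_nonneg (by linarith) (by linarith)
      rcases mul_eq_zero.1 (le_antisymm e3 e4) with e5 | e5
      · linarith
      · linarith
    · left
      subst hac
      have e : (p.re - a) * (b - d) = 0 := by
        have e1 : (p.re - a) * (b - p.re) = (p.re - a) * (d - p.re) := by linarith
        linear_combination e1
      rcases mul_eq_zero.1 e with e5 | e5
      · linarith
      · exact absurd ⟨rfl, by linarith⟩ hne
    · right
      have hdb : b ≤ d := by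
        by_contra hcon
        exact h2 ⟨hac, h', not_le.1 hcon⟩
      have e : (a - c) * (d - p.re) + (p.re - a) * (d - b) = 0 := by
        have e1 : (p.re - a) * (b - p.re) = (p.re - c) * (d - p.re) := by linarith
        linear_combination - e1
      have e2 : 0 ≤ (p.re - a) * (d - b) := mul_nonneg (by linarith) (by linarith)
      have e3 : (a - c) * (d - p.re) ≤ 0 := by linarith
      have e4 : 0 ≤ (a - c) * (d - p.re) := mul_nonneg (by linarith) (by linarith)
      rcases mul_eq_zero.1 (le_antisymm e3 e4) with e5 | e5
      · linarith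
      · linarith
  rcases ht with ht | ht
  · left
    refine Complex.ext ht ?_
    rw [k3, ht]
    simp [gP]
  · right
    refine Complex.ext ht ?_
    rw [k3, ht]
    simp [gP]

theorem outer {V : Type} [Finite V] (F : SimpleGraph V) (x : V → ℝ) (hx : Function.Injective x)
    (h : NonInt F x) : CR F = 0 := by
  set pos : V → ℂ := fun v => gP (x v) with hpos
  have hinj : Function.Injective pos := by
    intro u v huv
    exact hx (congrArg Complex.re huv)
  set arc : Sym2 V → Set ℂ := Sym2.lift ⟨fun a b => segment ℝ (pos a) (pos b),
    fun a b => segment_symm ℝ _ _⟩ with harc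
  have harc' : ∀ a b, arc s(a, b) = segment ℝ (pos a) (pos b) := fun a b => rfl
  have hends : ∀ e ∈ F.edgeSet, ∃ a b, F.Adj a b ∧ x a < x b ∧ e = s(a, b) := by
    intro e he
    induction e using Sym2.ind with
    | _ a b =>
      have hab : F.Adj a b := he
      rcases lt_trichotomy (x a) (x b) with h1 | h1 | h1
      · exact ⟨a, b, hab, h1, rfl⟩
      · exact absurd (hx h1) hab.ne
      · exact ⟨b, a, hab.symm, h1, Sym2.eq_swap⟩
  have hmain : ∀ e ∈ F.edgeSet, ∀ f ∈ F.edgeSet, e ≠ f → ∀ p ∈ arc e ∩ arc f, p ∈ range pos := by
    intro e he f hf hef p hp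
    obtain ⟨a, b, hab, hab', rfl⟩ := hends e he
    obtain ⟨c, d, hcd, hcd', rfl⟩ := hends f hf
    rw [harc', harc'] at hp
    rcases geo_main hab' hcd' (h a b c d hab hcd) (h c d a b hcd hab)
      (fun h1 => hef (by rw [hx h1.1, hx h1.2])) hp.1 hp.2 with h1 | h1
    · exact ⟨a, h1.symm⟩
    · exact ⟨b, h1.symm⟩
  let D : Drawing F :=
    { pos := pos
      arc := arc
      pos_inj := hinj
      isArc := by
        intro u v huv
        rw [harc']
        exact isArc_segment (fun h => huv.ne (hinj h))
      avoid := by
        intro u v w huv hw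
        rw [harc'] at hw
        have key : ∀ u v : V, x u < x v → pos w ∈ segment ℝ (pos u) (pos v) → w = u ∨ w = v := by
          intro u v huv hw
          obtain ⟨-, -, k3⟩ := geo_seg huv hw
          have k4 : (x w - x u) * (x v - x w) = 0 := by
            have k5 : x w ^ 2 = x w ^ 2 + (x w - x u) * (x v - x w) := k3
            linarith
          rcases mul_eq_zero.1 k4 with k | k
          · exact Or.inl (hx (by linarith))
          · exact Or.inr (hx (by linarith))
        rcases lt_trichotomy (x u) (x v) with h1 | h1 | h1
        · exact key u v h1 hw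
        · exact absurd (hx h1) huv.ne
        · rw [segment_symm] at hw
          exact (key v u h1 hw).symm
      inter_finite := by
        intro e he f hf hef
        exact (Set.finite_range pos).subset fun p hp => hmain e he f hf hef p hp
      proper := by
        intro e he f hf hef p hp hpp
        exact absurd (hmain e he f hf hef p hp) hpp
      no_triple := by
        intro e he f hf g _ hef _ _ p hp _
        exact hmain e he f hf hef p hp }
  have hD : D.cr = 0 := by
    have h0 : D.crossings = ∅ := by
      rw [Set.eq_empty_iff_forall_notMem]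
      rintro p ⟨e, he, f, hf, hef, hp, hpp⟩
      exact hpp (hmain e he f hf hef p hp)
    rw [Drawing.cr, h0, Set.ncard_empty]
  exact Nat.le_zero.1 (Nat.sInf_le ⟨D, hD⟩)

end H90.BX
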