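import Pool.Agent.H90.BP.Geo

/-!
# [H90 BP LEAF] orders without interleaving edges: steps, and graphs with all degrees at most two

`leaf_step`: `u` has the only neighbour `v` in `F`; `x' = Function.update x u (x v + ε)` with `0 < ε` smaller than every positive
`x w - x v` (finitely many `w`). No vertex lies strictly between `v` and `u`, the edges of `F` other than `uv` do not contain `u`.
`deg2`: induction on the number of edges (`F.edgeSet.ncard`). If some `u` has exactly one neighbour: `leaf_step` with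
`F.deleteEdges {s(u, v)}`. If some `u` has exactly two neighbours `v ≠ w`: let `F''` be `F` without the edges at `u` and with the edge
`vw` (`F''.Adj p q ↔ (F.Adj p q ∧ p ≠ u ∧ q ≠ u) ∨ (p = v ∧ q = w) ∨ (p = w ∧ q = v)`); it has fewer edges and all degrees at most
two. Take `x` for `F''`; by symmetry (`v`, `w` may be exchanged, or `x` replaced by `-x`: `NonInt` is symmetric under `-x` up to
renaming) `x v < x w`. Neighbours of `v` in `F''`: `w` and at most one more, `d`. If `d` exists and `x v < x d < x w` put `u` directly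
before `v` (`x v - ε`), otherwise directly after `v` (`x v + ε`). Then no edges interleave: `uv` has no vertex strictly inside;
`uw` behaves like `vw` for the edges which do not contain `v` or `u`, and the edge `vd` is nested or disjoint. If every degree is
`0` there are no edges.
-/

set_option autoImplicit false

open Set
open scoped Classical

noncomputable section

namespace H90.BX

open H29.BP

/-- put `u` directly after (`σ = 1`) or before (`σ = -1`) the vertex `v` -/
private theorem slot {V : Type} [Finite V] (u v : V) (huv : u ≠ v) (x : V → ℝ)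
    (hx : Function.Injective x) (σ : ℝ) (hσ : σ = 1 ∨ σ = -1) :
    ∃ x' : V → ℝ, Function.Injective x' ∧ (∀ z, z ≠ u → x' z = x z) ∧
      (∀ z, z ≠ u → z ≠ v → (x z < x' u ↔ x z < x v) ∧ (x' u < x z ↔ x v < x z)) ∧
      (σ = 1 → x v < x' u) ∧ (σ = -1 → x' u < x v) := by
  obtain ⟨ε, hε, h⟩ := Pi.exists_forall_pos_add_lt (x := fun _ : V => (0 : ℝ))
    (y := fun z => if z = v then 1 else |x z - x v|) (fun z => by
      by_cases hz : z = v
      · simp [hz]
      · simp only [if_neg hz]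
        exact abs_pos.2 (sub_ne_zero.2 fun h => hz (hx h)))
  have h' : ∀ z, z ≠ v → ε < |x z - x v| := by
    intro z hz
    have := h z
    simpa [hz] using this
  have hlt : ∀ z, z ≠ u → z ≠ v → (x z < x v + σ * ε ↔ x z < x v) ∧ (x v + σ * ε < x z ↔ x v < x z) := by
    intro z _ hz
    have h1 := h' z hz
    rcases hσ with rfl | rfl
    · rcases lt_abs.1 h1 with h2 | h2
      · exact ⟨⟨fun h3 => by linarith, fun h3 => by linarith⟩, ⟨fun h3 => by linarith, fun h3 => by linarith⟩⟩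
      · exact ⟨⟨fun h3 => by linarith, fun h3 => by linarith⟩, ⟨fun h3 => by linarith, fun h3 => by linarith⟩⟩
    · rcases lt_abs.1 h1 with h2 | h2
      · exact ⟨⟨fun h3 => by linarith, fun h3 => by linarith⟩, ⟨fun h3 => by linarith, fun h3 => by linarith⟩⟩
      · exact ⟨⟨fun h3 => by linarith, fun h3 => by linarith⟩, ⟨fun h3 => by linarith, fun h3 => by linarith⟩⟩
  have hne : ∀ z, z ≠ u → x z ≠ x v + σ * ε := by
    intro z hz heq
    by_cases hzv : z = v
    · subst hzv
      rcases hσ with rfl | rfl <;> linarith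
    · obtain ⟨h1, h2⟩ := hlt z hz hzv
      rcases lt_trichotomy (x z) (x v) with h3 | h3 | h3
      · have := h1.2 h3
        linarith
      · exact hzv (hx h3)
      · have := h2.2 h3
        linarith
  refine ⟨Function.update x u (x v + σ * ε), ?_, fun z hz => Function.update_of_ne hz _ _, ?_, ?_, ?_⟩
  · intro p q hpq
    by_cases hp : p = u <;> by_cases hq : q = u
    · rw [hp, hq]
    · rw [hp, Function.update_self, Function.update_of_ne hq] at hpq
      exact absurd hpq.symm (hne q hq)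
    · rw [hq, Function.update_self, Function.update_of_ne hp] at hpq
      exact absurd hpq (hne p hp)
    · rw [Function.update_of_ne hp, Function.update_of_ne hq] at hpq
      exact hx hpq
  · intro z hz hzv
    rw [Function.update_self]
    exact hlt z hz hzv
  · rintro rfl
    rw [Function.update_self]
    linarith
  · rintro rfl
    rw [Function.update_self]
    linarith

theorem leaf_step {V : Type} [Finite V] (F : SimpleGraph V) (u v : V) (huv : F.Adj u v)
    (hu : ∀ w, F.Adj u w → w = v) (x : V → ℝ) (hx : Function.Injective x)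
    (h : NonInt (F.deleteEdges {s(u, v)}) x) :
    ∃ x' : V → ℝ, Function.Injective x' ∧ NonInt F x' := by
  obtain ⟨x', hx', h1, h2, -, -⟩ := slot u v huv.ne x hx 1 (Or.inl rfl)
  have hvu : v ≠ u := huv.ne.symm
  have hbet : ∀ z, ¬ (x' u < x' z ∧ x' z < x' v) ∧ ¬ (x' v < x' z ∧ x' z < x' u) := by
    intro z
    by_cases hz : z = u
    · subst hz
      exact ⟨fun h3 => lt_irrefl _ h3.1, fun h3 => lt_irrefl _ h3.2⟩
    · by_cases hzv : z = v
      · subst hzv
        exact ⟨fun h3 => lt_irrefl _ h3.2, fun h3 => lt_irrefl _ h3.1⟩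
      · rw [h1 z hz, h1 v hvu]
        obtain ⟨h3, h4⟩ := h2 z hz hzv
        exact ⟨fun h5 => lt_asymm (h4.1 h5.1) h5.2, fun h5 => lt_asymm h5.1 (h3.1 h5.2)⟩
  refine ⟨x', hx', fun a b c d hab hcd hlt => ?_⟩
  obtain ⟨l1, l2, l3⟩ := hlt
  have old : ∀ p q, F.Adj p q → (p = u ∧ q = v) ∨ (p = v ∧ q = u) ∨
      (p ≠ u ∧ q ≠ u ∧ (F.deleteEdges {s(u, v)}).Adj p q) := by
    intro p q hpq
    by_cases hp : p = u
    · subst hp
      exact Or.inl ⟨rfl, hu q hpq⟩
    · by_cases hq : q = u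
      · subst hq
        exact Or.inr (Or.inl ⟨hu p hpq.symm, rfl⟩)
      · refine Or.inr (Or.inr ⟨hp, hq, ?_⟩)
        rw [SimpleGraph.deleteEdges_adj]
        refine ⟨hpq, fun h5 => ?_⟩
        rw [Set.mem_singleton_iff, Sym2.eq_iff] at h5
        rcases h5 with ⟨h5, -⟩ | ⟨-, h5⟩
        · exact hp h5
        · exact hq h5
  rcases old a b hab with ⟨rfl, rfl⟩ | ⟨rfl, rfl⟩ | ⟨ha, hb, hab'⟩
  · exact (hbet c).1 ⟨l1, l2⟩
  · exact (hbet c).2 ⟨l1, l2⟩
  · rcases old c d hcd with ⟨rfl, rfl⟩ | ⟨rfl, rfl⟩ | ⟨hc, hd, hcd'⟩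
    · exact (hbet b).1 ⟨l2, l3⟩
    · exact (hbet b).2 ⟨l2, l3⟩
    · rw [h1 a ha, h1 c hc] at l1
      rw [h1 c hc, h1 b hb] at l2
      rw [h1 b hb, h1 d hd] at l3
      exact h a b c d hab' hcd' ⟨l1, l2, l3⟩

/-- the step at a vertex `u` with two neighbours `v`, `w` -/
private theorem step2 {V : Type} [Finite V] (F F2 : SimpleGraph V) (u v w : V) (huv : F.Adj u v)
    (huw : F.Adj u w) (hu : ∀ z, F.Adj u z → z = v ∨ z = w) (hne : v ≠ w)
    (hF2 : ∀ p q, F.Adj p q → p ≠ u → q ≠ u → F2.Adj p q) (h2 : F2.Adj v w)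
    (hv : ∀ y z, F.Adj v y → F.Adj v z → y ≠ u → z ≠ u → y = z)
    (x : V → ℝ) (hx : Function.Injective x) (h : NonInt F2 x) (hlt : x v < x w) :
    ∃ x' : V → ℝ, Function.Injective x' ∧ NonInt F x' := by
  have hvu : v ≠ u := huv.ne.symm
  have hwu : w ≠ u := huw.ne.symm
  obtain ⟨σ, hσ, hσ1⟩ : ∃ σ : ℝ, (σ = 1 ∨ σ = -1) ∧
      ((σ = -1 ∧ ∀ y, F.Adj v y → y ≠ u → x v < x y ∧ x y < x w) ∨
        (σ = 1 ∧ ∀ y, F.Adj v y → y ≠ u → x y < x v ∨ x w ≤ x y)) := by
    by_cases hy : ∃ y, F.Adj v y ∧ y ≠ u ∧ x v < x y ∧ x y < x w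
    · obtain ⟨y, hy1, hy2, hy3, hy4⟩ := hy
      refine ⟨-1, Or.inr rfl, Or.inl ⟨rfl, fun z hz hzu => ?_⟩⟩
      rw [hv z y hz hy1 hzu hy2]
      exact ⟨hy3, hy4⟩
    · push Not at hy
      refine ⟨1, Or.inl rfl, Or.inr ⟨rfl, fun z hz hzu => ?_⟩⟩
      rcases lt_trichotomy (x z) (x v) with h3 | h3 | h3
      · exact Or.inl h3
      · exact absurd (hx h3) hz.ne.symm
      · exact Or.inr (hy z hz hzu h3)
  obtain ⟨x', hx', h1, hs, hp, hm⟩ := slot u v huv.ne x hx σ hσ
  have hbet : ∀ z, ¬ (x' u < x' z ∧ x' z < x' v) ∧ ¬ (x' v < x' z ∧ x' z < x' u) := by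
    intro z
    by_cases hz : z = u
    · subst hz
      exact ⟨fun h3 => lt_irrefl _ h3.1, fun h3 => lt_irrefl _ h3.2⟩
    · by_cases hzv : z = v
      · subst hzv
        exact ⟨fun h3 => lt_irrefl _ h3.2, fun h3 => lt_irrefl _ h3.1⟩
      · rw [h1 z hz, h1 v hvu]
        obtain ⟨h3, h4⟩ := hs z hz hzv
        exact ⟨fun h5 => lt_asymm (h4.1 h5.1) h5.2, fun h5 => lt_asymm h5.1 (h3.1 h5.2)⟩
  have huwlt : x' u < x w := (hs w hwu hne.symm).2.2 hlt
  refine ⟨x', hx', fun a b c d hab hcd hl => ?_⟩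
  obtain ⟨l1, l2, l3⟩ := hl
  have old : ∀ p q, F.Adj p q → (p = u ∧ q = v) ∨ (p = v ∧ q = u) ∨ (p = u ∧ q = w) ∨
      (p = w ∧ q = u) ∨ (p ≠ u ∧ q ≠ u ∧ F2.Adj p q) := by
    intro p q hpq
    by_cases hp : p = u
    · subst hp
      rcases hu q hpq with h3 | h3
      · exact Or.inl ⟨rfl, h3⟩
      · exact Or.inr (Or.inr (Or.inl ⟨rfl, h3⟩))
    · by_cases hq : q = u
      · subst hq
        rcases hu p hpq.symm with h3 | h3
        · exact Or.inr (Or.inl ⟨h3, rfl⟩)
        · exact Or.inr (Or.inr (Or.inr (Or.inl ⟨h3, rfl⟩)))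
      · exact Or.inr (Or.inr (Or.inr (Or.inr ⟨hp, hq, hF2 p q hpq hp hq⟩)))
  -- an old edge and the edge `uw`
  have k1 : ∀ c d, F.Adj c d → c ≠ u → d ≠ u → x' u < x c → x c < x w → x w < x d → False := by
    intro c d hcd hc hd e1 e2 e3
    by_cases hcv : c = v
    · subst hcv
      rcases hσ1 with ⟨hσ2, h5⟩ | ⟨hσ2, h5⟩
      · have := (h5 d hcd hd).2
        linarith
      · have := hp hσ2
        linarith
    · have e4 := (hs c hc hcv).2.1 e1
      by_cases hdv : d = v
      · subst hdv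
        linarith
      · exact h v w c d h2 (hF2 c d hcd hc hd) ⟨e4, e2, e3⟩
  have k2 : ∀ a b, F.Adj a b → a ≠ u → b ≠ u → x a < x' u → x' u < x b → x b < x w → False := by
    intro a b hab ha hb e1 e2 e3
    by_cases hav : a = v
    · subst hav
      rcases hσ1 with ⟨hσ2, h5⟩ | ⟨hσ2, h5⟩
      · have := hm hσ2
        linarith
      · have e4 := (hs b hb hab.ne.symm).2.1 e2
        rcases h5 b hab hb with h6 | h6 <;> linarith
    · have e4 := (hs a ha hav).1.1 e1
      by_cases hbv : b = v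
      · subst hbv
        rcases hσ1 with ⟨hσ2, h5⟩ | ⟨hσ2, h5⟩
        · have := (h5 a hab.symm ha).1
          linarith
        · have := hp hσ2
          linarith
      · have e5 := (hs b hb hbv).2.1 e2
        exact h a b v w (hF2 a b hab ha hb) h2 ⟨e4, e5, e3⟩
  rcases old a b hab with ⟨rfl, rfl⟩ | ⟨rfl, rfl⟩ | ⟨ha, hb⟩ | ⟨ha, hb⟩ | ⟨ha, hb, hab'⟩
  · exact (hbet c).1 ⟨l1, l2⟩
  · exact (hbet c).2 ⟨l1, l2⟩
  · rcases old c d hcd with ⟨rfl, rfl⟩ | ⟨rfl, rfl⟩ | ⟨hc, hd⟩ | ⟨hc, hd⟩ | ⟨hc, hd, hcd'⟩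
    · exact (hbet b).1 ⟨l2, l3⟩
    · exact (hbet b).2 ⟨l2, l3⟩
    · rw [ha, hc] at l1
      exact lt_irrefl _ l1
    · rw [hb, hc] at l2
      exact lt_irrefl _ l2
    · rw [ha, h1 c hc] at l1
      rw [h1 c hc, hb, h1 w hwu] at l2
      rw [hb, h1 w hwu, h1 d hd] at l3
      exact k1 c d hcd hc hd l1 l2 l3
  · have := l1.trans l2
    rw [ha, hb, h1 w hwu] at this
    linarith
  · rcases old c d hcd with ⟨rfl, rfl⟩ | ⟨rfl, rfl⟩ | ⟨hc, hd⟩ | ⟨hc, hd⟩ | ⟨hc, hd, hcd'⟩
    · exact (hbet b).1 ⟨l2, l3⟩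
    · exact (hbet b).2 ⟨l2, l3⟩
    · rw [hc, h1 a ha] at l1
      rw [hc, h1 b hb] at l2
      rw [hd, h1 b hb, h1 w hwu] at l3
      exact k2 a b hab ha hb l1 l2 l3
    · have := l2.trans l3
      rw [hc, hd, h1 w hwu] at this
      linarith
    · rw [h1 a ha, h1 c hc] at l1
      rw [h1 c hc, h1 b hb] at l2
      rw [h1 b hb, h1 d hd] at l3
      exact h a b c d hab' hcd' ⟨l1, l2, l3⟩

private theorem deg2_aux {V : Type} [Finite V] (n : ℕ) : ∀ (F : SimpleGraph V),
    {p | ∃ q, F.Adj p q}.ncard = n →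
    (∀ p a b c, F.Adj p a → F.Adj p b → F.Adj p c → a = b ∨ a = c ∨ b = c) →
    ∃ x : V → ℝ, Function.Injective x ∧ NonInt F x := by
  induction n using Nat.strong_induction_on with
  | _ n ih =>
  intro F hn hD
  by_cases hE : ∃ u v, F.Adj u v
  · obtain ⟨u, v, huv⟩ := hE
    by_cases hw : ∃ w, F.Adj u w ∧ w ≠ v
    · obtain ⟨w, huw, hwv⟩ := hw
      have hu : ∀ z, F.Adj u z → z = v ∨ z = w := by
        intro z hz
        rcases hD u z v w hz huv huw with h1 | h1 | h1
        · exact Or.inl h1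
        · exact Or.inr h1
        · exact absurd h1.symm hwv
      have hvu : v ≠ u := huv.ne.symm
      have hwu : w ≠ u := huw.ne.symm
      let F2 : SimpleGraph V :=
        { Adj := fun p q => (F.Adj p q ∧ p ≠ u ∧ q ≠ u) ∨ (p = v ∧ q = w) ∨ (p = w ∧ q = v)
          symm := ⟨by
            rintro p q (⟨h1, h2, h3⟩ | ⟨h1, h2⟩ | ⟨h1, h2⟩)
            · exact Or.inl ⟨h1.symm, h3, h2⟩
            · exact Or.inr (Or.inr ⟨h2, h1⟩)
            · exact Or.inr (Or.inl ⟨h2, h1⟩)⟩
          loopless := ⟨by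
            rintro p (⟨h1, -, -⟩ | ⟨h1, h2⟩ | ⟨h1, h2⟩)
            · exact h1.ne rfl
            · exact hwv (h2.symm.trans h1)
            · exact hwv (h1.symm.trans h2)⟩ }
      have hF2 : ∀ p q, F2.Adj p q ↔
          ((F.Adj p q ∧ p ≠ u ∧ q ≠ u) ∨ (p = v ∧ q = w) ∨ (p = w ∧ q = v)) := fun p q => Iff.rfl
      have uv : ∀ y z, F.Adj v y → F.Adj v z → y ≠ u → z ≠ u → y = z := by
        intro y z hy hz hyu hzu
        rcases hD v y z u hy hz huv.symm with h1 | h1 | h1
        · exact h1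
        · exact absurd h1 hyu
        · exact absurd h1 hzu
      have uw : ∀ y z, F.Adj w y → F.Adj w z → y ≠ u → z ≠ u → y = z := by
        intro y z hy hz hyu hzu
        rcases hD w y z u hy hz huw.symm with h1 | h1 | h1
        · exact h1
        · exact absurd h1 hyu
        · exact absurd h1 hzu
      have three : ∀ (P : V → Prop) (t : V), (∀ y z, P y → P z → y = z) → ∀ a b c,
          (a = t ∨ P a) → (b = t ∨ P b) → (c = t ∨ P c) → a = b ∨ a = c ∨ b = c := by
        intro P t hP a b c ha hb hc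
        rcases ha with ha | ha <;> rcases hb with hb | hb <;> rcases hc with hc | hc
        · exact Or.inl (ha.trans hb.symm)
        · exact Or.inl (ha.trans hb.symm)
        · exact Or.inr (Or.inl (ha.trans hc.symm))
        · exact Or.inr (Or.inr (hP _ _ hb hc))
        · exact Or.inr (Or.inr (hb.trans hc.symm))
        · exact Or.inr (Or.inl (hP _ _ ha hc))
        · exact Or.inl (hP _ _ ha hb)
        · exact Or.inl (hP _ _ ha hb)
      have hD2 : ∀ p a b c, F2.Adj p a → F2.Adj p b → F2.Adj p c → a = b ∨ a = c ∨ b = c := by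
        intro p a b c ha hb hc
        by_cases hpv : p = v
        · subst hpv
          have key : ∀ z, F2.Adj p z → z = w ∨ (F.Adj p z ∧ z ≠ u) := by
            intro z hz
            rcases (hF2 _ _).1 hz with ⟨h1, -, h3⟩ | ⟨-, h2⟩ | ⟨h1, -⟩
            · exact Or.inr ⟨h1, h3⟩
            · exact Or.inl h2
            · exact absurd h1.symm hwv
          exact three (fun z => F.Adj p z ∧ z ≠ u) w (fun y z hy hz => uv y z hy.1 hz.1 hy.2 hz.2)
            a b c (key a ha) (key b hb) (key c hc)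
        · by_cases hpw : p = w
          · subst hpw
            have key : ∀ z, F2.Adj p z → z = v ∨ (F.Adj p z ∧ z ≠ u) := by
              intro z hz
              rcases (hF2 _ _).1 hz with ⟨h1, -, h3⟩ | ⟨h1, -⟩ | ⟨-, h2⟩
              · exact Or.inr ⟨h1, h3⟩
              · exact absurd h1 hpv
              · exact Or.inl h2
            exact three (fun z => F.Adj p z ∧ z ≠ u) v (fun y z hy hz => uw y z hy.1 hz.1 hy.2 hz.2)
              a b c (key a ha) (key b hb) (key c hc)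
          · have key : ∀ z, F2.Adj p z → F.Adj p z := by
              intro z hz
              rcases (hF2 _ _).1 hz with ⟨h1, -, -⟩ | ⟨h1, -⟩ | ⟨h1, -⟩
              · exact h1
              · exact absurd h1 hpv
              · exact absurd h1 hpw
            exact hD p a b c (key a ha) (key b hb) (key c hc)
      have hlt : {p | ∃ q, F2.Adj p q}.ncard < n := by
        rw [← hn]
        apply Set.ncard_lt_ncard _ (Set.toFinite _)
        refine ⟨?_, fun hsub => ?_⟩
        · rintro p ⟨q, hq⟩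
          rcases (hF2 _ _).1 hq with ⟨h1, -, -⟩ | ⟨h1, -⟩ | ⟨h1, -⟩
          · exact ⟨q, h1⟩
          · exact ⟨u, h1 ▸ huv.symm⟩
          · exact ⟨u, h1 ▸ huw.symm⟩
        · obtain ⟨q, hq⟩ := hsub (show u ∈ {p | ∃ q, F.Adj p q} from ⟨v, huv⟩)
          rcases (hF2 _ _).1 hq with ⟨-, h1, -⟩ | ⟨h1, -⟩ | ⟨h1, -⟩
          · exact h1 rfl
          · exact hvu h1.symm
          · exact hwu h1.symm
      obtain ⟨x, hx, hN⟩ := ih _ hlt F2 rfl hD2
      have hold : ∀ p q, F.Adj p q → p ≠ u → q ≠ u → F2.Adj p q := fun p q h1 h2 h3 =>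
        (hF2 _ _).2 (Or.inl ⟨h1, h2, h3⟩)
      rcases lt_trichotomy (x v) (x w) with h1 | h1 | h1
      · exact step2 F F2 u v w huv huw hu hwv.symm hold ((hF2 _ _).2 (Or.inr (Or.inl ⟨rfl, rfl⟩)))
          uv x hx hN h1
      · exact absurd (hx h1).symm hwv
      · exact step2 F F2 u w v huw huv (fun z hz => (hu z hz).symm) hwv hold
          ((hF2 _ _).2 (Or.inr (Or.inr ⟨rfl, rfl⟩))) uw x hx hN h1
    · push Not at hw
      have hlt : {p | ∃ q, (F.deleteEdges {s(u, v)}).Adj p q}.ncard < n := by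
        rw [← hn]
        apply Set.ncard_lt_ncard _ (Set.toFinite _)
        refine ⟨?_, fun hsub => ?_⟩
        · rintro p ⟨q, hq⟩
          rw [SimpleGraph.deleteEdges_adj] at hq
          exact ⟨q, hq.1⟩
        · obtain ⟨q, hq⟩ := hsub (show u ∈ {p | ∃ q, F.Adj p q} from ⟨v, huv⟩)
          rw [SimpleGraph.deleteEdges_adj] at hq
          apply hq.2
          rw [hw q hq.1]
          rfl
      obtain ⟨x, hx, hN⟩ := ih _ hlt (F.deleteEdges {s(u, v)}) rfl (fun p a b c ha hb hc => by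
        rw [SimpleGraph.deleteEdges_adj] at ha hb hc
        exact hD p a b c ha.1 hb.1 hc.1)
      exact leaf_step F u v huv hw x hx hN
  · push Not at hE
    obtain ⟨n, ⟨e⟩⟩ := Finite.exists_equiv_fin V
    refine ⟨fun v => ((e v : ℕ) : ℝ), fun a b h => ?_, fun a b c d hab => absurd hab (hE a b)⟩
    have h1 : ((e a : ℕ) : ℝ) = ((e b : ℕ) : ℝ) := h
    exact e.injective (Fin.ext (by exact_mod_cast h1))

theorem deg2 {V : Type} [Finite V] (F : SimpleGraph V) (h : ∀ v, (F.neighborSet v).ncard ≤ 2) :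
    ∃ x : V → ℝ, Function.Injective x ∧ NonInt F x := by
  refine deg2_aux _ F rfl fun p a b c ha hb hc => ?_
  by_contra hcon
  push Not at hcon
  obtain ⟨h1, h2, h3⟩ := hcon
  have h4 : 2 < (F.neighborSet p).ncard :=
    (Set.two_lt_ncard_iff (Set.toFinite _)).2 ⟨a, b, c, ha, hb, hc, h1, h2, h3⟩
  exact absurd (h p) (not_le.2 h4)

end H90.BX
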