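import Pool.Agent.H90.BP.Psf

/-!
# [H90 BP MAT] crossings assigned to different vertices

For `p ∈ M` let `e p` be the edge of `hend`. `G₂` = the graph with the edges `e p`, `p ∈ M`, `G₁ = G \ G₂`. `pseudo_CR` for `G₂`
(`ψ f = φ p` for some `p ∈ M` with `e p = f`): `CR G₂ = 0`. `G₁` drawn as in `D`: its crossings are crossings of `D` which are not in
`M` (a point `p ∈ M` lies on `e p`, and by `no_triple` only on one more edge). `CR2 G ≤ CR G₁ + CR G₂` (`Nat.sInf_le`).
-/

set_option autoImplicit false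

open Set
open scoped Classical

noncomputable section

namespace H90.BX

open H29.BP

/-- the drawing of a subgraph given by a drawing -/
private def subD {V : Type} {G G' : SimpleGraph V} (D : Drawing G) (h : G' ≤ G) : Drawing G' where
  pos := D.pos
  arc := D.arc
  pos_inj := D.pos_inj
  isArc u v huv := D.isArc u v (h huv)
  avoid u v w huv := D.avoid u v w (h huv)
  inter_finite e he f hf := D.inter_finite e (SimpleGraph.edgeSet_mono h he) f
    (SimpleGraph.edgeSet_mono h hf)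
  proper e he f hf := D.proper e (SimpleGraph.edgeSet_mono h he) f
    (SimpleGraph.edgeSet_mono h hf)
  no_triple e he f hf g hg := D.no_triple e (SimpleGraph.edgeSet_mono h he) f
    (SimpleGraph.edgeSet_mono h hf) g (SimpleGraph.edgeSet_mono h hg)

theorem match_bound {V : Type} [Finite V] {G : SimpleGraph V} (D : Drawing G) (M : Set ℂ)
    (hM : M ⊆ D.crossings) (φ : ℂ → V) (hφ : Set.InjOn φ M)
    (hend : ∀ p ∈ M, ∃ e ∈ G.edgeSet, φ p ∈ e ∧ p ∈ D.arc e) : CR2 G + M.ncard ≤ D.cr := by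
  have : Nonempty (Sym2 V) := ⟨s(φ 0, φ 0)⟩
  choose! e heG heφ hep using hend
  set E₂ : Set (Sym2 V) := e '' M with hE₂
  have hE₂G : E₂ ⊆ G.edgeSet := by
    rintro _ ⟨p, hp, rfl⟩
    exact heG p hp
  set G₂ : SimpleGraph V := SimpleGraph.fromEdgeSet E₂ with hG₂
  have hG₂e : G₂.edgeSet = E₂ := by
    rw [hG₂, SimpleGraph.edgeSet_fromEdgeSet]
    refine Set.Subset.antisymm Set.sdiff_subset ?_
    intro f hf
    exact ⟨hf, G.not_isDiag_of_mem_edgeSet (hE₂G hf)⟩
  have hG₂G : G₂ ≤ G := by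
    rw [← SimpleGraph.edgeSet_subset_edgeSet, hG₂e]
    exact hE₂G
  -- the second part has no crossings
  have hc2 : CR G₂ = 0 := by
    have hex : ∀ f ∈ E₂, ∃ p ∈ M, e p = f := fun f hf => hf
    choose! g hgM hgf using hex
    refine pseudo_CR G₂ (fun f => φ (g f)) ?_ ?_
    · intro f hf
      rw [hG₂e] at hf
      have h1 := heφ (g f) (hgM f hf)
      rw [hgf f hf] at h1
      exact h1
    · intro f hf f' hf' hff
      rw [hG₂e] at hf hf'
      have h1 : g f = g f' := hφ (hgM f hf) (hgM f' hf') hff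
      rw [← hgf f hf, ← hgf f' hf', h1]
  -- the first part
  have hG₁G : G \ G₂ ≤ G := sdiff_le
  have h3 : (subD D hG₁G).crossings ⊆ D.crossings \ M := by
    rintro p ⟨e', he', f', hf', hef, hp⟩
    have hp' : p ∈ (D.arc e' ∩ D.arc f') \ range D.pos := hp
    rw [SimpleGraph.edgeSet_sdiff, hG₂e] at he' hf'
    refine ⟨⟨e', he'.1, f', hf'.1, hef, hp'⟩, ?_⟩
    intro hpM
    have h4 : e' ≠ e p := by
      rintro rfl
      exact he'.2 ⟨p, hpM, rfl⟩
    have h5 : f' ≠ e p := by
      rintro rfl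
      exact hf'.2 ⟨p, hpM, rfl⟩
    exact hp'.2 (D.no_triple e' he'.1 f' hf'.1 (e p) (heG p hpM) hef h4 h5 p hp'.1 (hep p hpM))
  have h4 : CR (G \ G₂) ≤ (subD D hG₁G).cr := Nat.sInf_le ⟨subD D hG₁G, rfl⟩
  have h5 : (subD D hG₁G).cr ≤ (D.crossings \ M).ncard :=
    Set.ncard_le_ncard h3 (D.crossings_finite.subset Set.sdiff_subset)
  have h6 : (D.crossings \ M).ncard + M.ncard = D.cr :=
    Set.ncard_sdiff_add_ncard_of_subset hM D.crossings_finite
  have h7 : CR2 G ≤ CR (G \ G₂) + CR G₂ :=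
    Nat.sInf_le ⟨G \ G₂, G₂, disjoint_sdiff_self_left, sdiff_sup_cancel hG₂G, rfl⟩
  omega

end H90.BX
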