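import Pool.Agent.H90.BP.Leaf

/-!
# [H90 BP PSF] if the edges can be assigned to different own ends, the graph can be drawn without crossings

Induction on the number of edges. If some vertex `u` has exactly one neighbour `v`: `F.deleteEdges {s(u, v)}` satisfies the
hypothesis (restriction) and `leaf_step`. Otherwise all degrees are `0` or at least `2`; with `W` the set of the vertices of degree
at least `2`, `∑_{v ∈ W} deg v = ∑_v deg v = 2 |E| ≤ 2 |W|` (`ψ` maps `E` injectively into `W`), so all degrees are at most `2` and
`deg2` applies.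
-/

set_option autoImplicit false

open Set
open scoped Classical

noncomputable section

namespace H90.BX

open H29.BP

theorem pseudo {V : Type} [Finite V] (F : SimpleGraph V) (ψ : Sym2 V → V)
    (hψ : ∀ e ∈ F.edgeSet, ψ e ∈ e) (hinj : Set.InjOn ψ F.edgeSet) :
    ∃ x : V → ℝ, Function.Injective x ∧ NonInt F x := by
  obtain ⟨n, hn⟩ : ∃ n, F.edgeSet.ncard = n := ⟨_, rfl⟩
  induction n using Nat.strong_induction_on generalizing F with
  | _ n ih =>
  by_cases hA : ∃ u v, F.Adj u v ∧ ∀ w, F.Adj u w → w = v
  · obtain ⟨u, v, huv, hu⟩ := hA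
    have hsub : (F.deleteEdges {s(u, v)}).edgeSet ⊆ F.edgeSet := by
      rw [SimpleGraph.edgeSet_deleteEdges]
      exact Set.sdiff_subset
    have hlt : (F.deleteEdges {s(u, v)}).edgeSet.ncard < n := by
      rw [← hn]
      refine Set.ncard_lt_ncard ⟨hsub, fun hh => ?_⟩ (Set.toFinite _)
      have h1 : s(u, v) ∈ F.edgeSet := huv
      have h2 := hh h1
      rw [SimpleGraph.edgeSet_deleteEdges] at h2
      exact h2.2 rfl
    obtain ⟨x, hx, h⟩ := ih _ hlt (F.deleteEdges {s(u, v)}) (fun e he => hψ e (hsub he))
      (hinj.mono hsub) rfl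
    exact leaf_step F u v huv hu x hx h
  · push Not at hA
    apply deg2
    have hfin : Fintype V := Fintype.ofFinite V
    have hdeg : ∀ v, (F.neighborSet v).ncard = F.degree v := by
      intro v
      rw [Set.ncard_eq_toFinset_card', ← SimpleGraph.card_neighborFinset_eq_degree]
      rfl
    have h2 : ∀ u v, F.Adj u v → 2 ≤ F.degree u := by
      intro u v huv
      obtain ⟨w, hw, hne⟩ := hA u v huv
      rw [← hdeg]
      have hs : ({w, v} : Set V) ⊆ F.neighborSet u := by
        intro z hz
        rcases hz with rfl | hz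
        · exact hw
        · rw [Set.mem_singleton_iff] at hz
          rw [hz]
          exact huv
      have h3 := Set.ncard_le_ncard hs (Set.toFinite _)
      rwa [Set.ncard_pair hne] at h3
    have hsum := F.sum_degrees_eq_twice_card_edges
    have hcard : F.edgeFinset.card ≤ (Finset.univ.filter fun v => F.degree v ≠ 0).card := by
      refine Finset.card_le_card_of_injOn ψ (fun e he => ?_) (fun e he e' he' hee => ?_)
      · have he1 : e ∈ F.edgeSet := by simpa using he
        have he2 := hψ e he1
        have he3 : ψ e ∈ F.support ∨ F.degree (ψ e) ≠ 0 := by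
          right
          obtain ⟨y, hy⟩ := Sym2.mem_iff_exists.1 he2
          rw [hy] at he1
          have := h2 _ _ (SimpleGraph.mem_edgeSet _ |>.1 he1)
          omega
        rcases he3 with h | h
        · obtain ⟨y, hy⟩ := (SimpleGraph.mem_support _).1 h
          have := h2 _ _ hy
          simp only [Finset.coe_filter, Finset.mem_univ, true_and, Set.mem_ofPred_eq]
          omega
        · simpa using h
      · exact hinj (by simpa using he) (by simpa using he') hee
    have hsumW : ∑ v ∈ Finset.univ.filter (fun v => F.degree v ≠ 0), F.degree v = ∑ v, F.degree v :=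
      Finset.sum_filter_ne_zero _
    intro v
    rw [hdeg]
    by_contra hcon
    push Not at hcon
    have hv : v ∈ Finset.univ.filter (fun v => F.degree v ≠ 0) := by
      simp only [Finset.mem_filter, Finset.mem_univ, true_and]
      omega
    have hlt : ∑ v ∈ Finset.univ.filter (fun v => F.degree v ≠ 0), 2 <
        ∑ v ∈ Finset.univ.filter (fun v => F.degree v ≠ 0), F.degree v := by
      refine Finset.sum_lt_sum (fun i hi => ?_) ⟨v, hv, hcon⟩
      have hi' : F.degree i ≠ 0 := (Finset.mem_filter.1 hi).2
      have hi2 : 0 < F.degree i := Nat.pos_of_ne_zero hi'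
      obtain ⟨w, hw⟩ := (SimpleGraph.degree_pos_iff_exists_adj _ _).1 hi2
      exact h2 _ _ hw
    rw [Finset.sum_const, smul_eq_mul, hsumW, hsum] at hlt
    omega

theorem pseudo_CR {V : Type} [Finite V] (F : SimpleGraph V) (ψ : Sym2 V → V)
    (hψ : ∀ e ∈ F.edgeSet, ψ e ∈ e) (hinj : Set.InjOn ψ F.edgeSet) : CR F = 0 := by
  obtain ⟨x, hx, h⟩ := pseudo F ψ hψ hinj
  exact outer F x hx h

end H90.BX
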