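import Pool.Agent.H90.BP.Few

/-!
# [H90 BP SLOT] crossed edges assigned to their ends, at most `k` at every vertex

`slots`: for `σ : V → Fin k` let `F σ` be the graph with the edges `e ∈ crossedEdges D` with `l e = σ (ψ e)`. `pseudo_CR` for `F σ`
(`ψ` is injective on its edges by `hinj`): `CR (F σ) = 0`. So `CR2 G ≤ CR (G \ F σ) ≤ U σ`, the number of the crossings of `D` of two
edges which are not in `F σ` (as in Mat.lean; or in the form `2 * U σ = ∑_e ∑_f [e, f not in F σ] D.x e f` with `CR2_le` or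
`piece` of H29). Two edges `e ≠ f` which cross have no common end (`D` is optimal: `opt_x`, `opt_adj`), so `ψ e ≠ ψ f`, and
`k ^ 2 * #{σ | l e ≠ σ (ψ e) ∧ l f ≠ σ (ψ f)} = (k - 1) ^ 2 * k ^ |V|`. Summed over all `σ`:
`k ^ 2 * ∑_σ U σ = (k - 1) ^ 2 * k ^ |V| * CR G`, so `k ^ 2 * U σ ≤ (k - 1) ^ 2 * CR G` for some `σ`.
`sparse`: Hall's theorem (`Finset.all_card_le_biUnion_card_iff_exists_injective`, as in Few.lean) for the crossed edges `e` and the sets
`{v | v ∈ e} × Fin k`: for a set `X` of crossed edges let `W` be the set of their ends, `|X| ≤ k |W|`.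
`span_of_deg`: `2 * #{e | both ends in W} ≤ ∑_{v ∈ W} #{e | v ∈ e} ≤ 2 k |W|`.
-/

set_option autoImplicit false

open Set
open scoped Classical

noncomputable section

namespace H90.BX

open H29.BP

/-- the crossed edges of a drawing -/
def crossedEdges {V : Type} {G : SimpleGraph V} (D : Drawing G) : Set (Sym2 V) :=
  {e ∈ G.edgeSet | ∃ p ∈ D.crossings, p ∈ D.arc e}

end H90.BX
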