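import Pool.Agent.H90.BP.Slot

/-!
# [H90 BP SLOTA] `slots`: see the header of Slot.lean
-/

set_option autoImplicit false

open Set
open scoped Classical

noncomputable section

namespace H90.BX

open H29.BP

/-- the drawing of a subgraph given by a drawing -/
private def subE {V : Type} {G G' : SimpleGraph V} (D : Drawing G) (h : G' ≤ G) : Drawing G' where
  pos := D.pos
  arc := D.arc
  pos_inj := D.pos_inj
  isArc u v huv := D.isArc u v (h huv)
  avoid u v w huv := D.avoid u v w (h huv)
  inter_finite e he f hf := D.inter_finite e (SimpleGraph.edgeSet_mono h he) f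
    (SimpleGraph.edgeSet_mono h hf)
  proper e he f hf := D.proper e (SimpleGraph.edgeSet_mono h he) f
    (SimpleGraph.edgeSet_mono h hf)
  no_triple e he f hf g hg := D.no_triple e (SimpleGraph.edgeSet_mono h he) f
    (SimpleGraph.edgeSet_mono h hf) g (SimpleGraph.edgeSet_mono h hg)

private theorem prod_two {V : Type} [Fintype V] {u v : V} (huv : u ≠ v) (x : ℕ) :
    ∏ w : V, (if w = u then x else if w = v then x else 1) = x ^ 2 := by
  have h1 : ∀ w : V, (if w = u then x else if w = v then x else 1) =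
      (if w = u then x else 1) * (if w = v then x else 1) := by
    intro w
    by_cases h : w = u
    · subst h
      rw [if_pos rfl, if_pos rfl, if_neg huv, mul_one]
    · rw [if_neg h, if_neg h, one_mul]
  rw [Finset.prod_congr rfl (fun w _ => h1 w), Finset.prod_mul_distrib, Finset.prod_ite_eq',
    Finset.prod_ite_eq', if_pos (Finset.mem_univ _), if_pos (Finset.mem_univ _), pow_two]

private theorem count {V : Type} [Fintype V] {u v : V} (huv : u ≠ v) {k : ℕ} (a b : Fin k) :
    k ^ 2 * (Finset.univ.filter fun σ : V → Fin k => a ≠ σ u ∧ b ≠ σ v).card =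
      (k - 1) ^ 2 * k ^ Fintype.card V := by
  let S : V → Finset (Fin k) := fun w =>
    if w = u then Finset.univ.erase a else if w = v then Finset.univ.erase b else Finset.univ
  have h1 : (Finset.univ.filter fun σ : V → Fin k => a ≠ σ u ∧ b ≠ σ v) = Fintype.piFinset S := by
    ext σ
    rw [Finset.mem_filter, Fintype.mem_piFinset]
    constructor
    · rintro ⟨-, ha, hb⟩ w
      by_cases h : w = u
      · subst h
        simp only [S, if_true, Finset.mem_erase, Finset.mem_univ, and_true]
        exact fun h => ha h.symm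
      · by_cases h' : w = v
        · subst h'
          simp only [S, if_neg h, if_true, Finset.mem_erase, Finset.mem_univ, and_true]
          exact fun h => hb h.symm
        · simp only [S, if_neg h, if_neg h', Finset.mem_univ]
    · intro h
      refine ⟨Finset.mem_univ _, ?_, ?_⟩
      · have h2 := h u
        simp only [S, if_true, Finset.mem_erase, Finset.mem_univ, and_true] at h2
        exact fun h => h2 h.symm
      · have h2 := h v
        simp only [S, if_neg huv.symm, if_true, Finset.mem_erase, Finset.mem_univ,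
          and_true] at h2
        exact fun h => h2 h.symm
  rw [h1, Fintype.card_piFinset, ← prod_two huv k, ← prod_two huv (k - 1)]
  have h3 : k ^ Fintype.card V = ∏ _w : V, k := by
    rw [Finset.prod_const, Finset.card_univ]
  rw [h3, ← Finset.prod_mul_distrib, ← Finset.prod_mul_distrib]
  apply Finset.prod_congr rfl
  intro w _
  by_cases h : w = u
  · simp only [S, if_pos h, Finset.card_erase_of_mem (Finset.mem_univ _), Finset.card_univ,
      Fintype.card_fin]
    exact mul_comm _ _
  · by_cases h' : w = v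
    · simp only [S, if_neg h, if_pos h', Finset.card_erase_of_mem (Finset.mem_univ _),
        Finset.card_univ, Fintype.card_fin]
      exact mul_comm _ _
    · simp only [S, if_neg h, if_neg h', Finset.card_univ, Fintype.card_fin]

theorem slots {V : Type} [Finite V] {G : SimpleGraph V} (D : Drawing G) (hD : D.cr = CR G) (k : ℕ)
    (hk : 1 ≤ k) (ψ : Sym2 V → V) (l : Sym2 V → Fin k) (hψ : ∀ e ∈ crossedEdges D, ψ e ∈ e)
    (hinj : ∀ e ∈ crossedEdges D, ∀ f ∈ crossedEdges D, ψ e = ψ f → l e = l f → e = f) :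
    k ^ 2 * CR2 G ≤ (k - 1) ^ 2 * CR G := by
  have := Fintype.ofFinite V
  have hfC : Fintype D.crossings := D.crossings_finite.fintype
  have hch : ∀ p : D.crossings, ∃ e f : Sym2 V, e ∈ G.edgeSet ∧ f ∈ G.edgeSet ∧ e ≠ f ∧
      (p : ℂ) ∈ D.arc e ∧ (p : ℂ) ∈ D.arc f ∧ ψ e ≠ ψ f := by
    rintro ⟨p, hp⟩
    have hp' := hp
    obtain ⟨e, he, f, hf, hef, hx⟩ := hp'
    have hno : ∀ u, u ∈ e → u ∉ f := by
      intro u hue huf
      obtain ⟨v, rfl⟩ := Sym2.mem_iff_exists.1 hue
      obtain ⟨w, rfl⟩ := Sym2.mem_iff_exists.1 huf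
      rw [SimpleGraph.mem_edgeSet] at he hf
      have h1 := opt_adj D hD he hf (fun h => hef (by rw [h]))
      rw [h1] at hx
      exact hx
    have hec : e ∈ crossedEdges D := ⟨he, p, hp, hx.1.1⟩
    have hfc : f ∈ crossedEdges D := ⟨hf, p, hp, hx.1.2⟩
    exact ⟨e, f, he, hf, hef, hx.1.1, hx.1.2, fun h => hno _ (hψ e hec) (h ▸ hψ f hfc)⟩
  choose E F hE hF hEF hpE hpF hne using hch
  have hEc : ∀ p, E p ∈ crossedEdges D := fun p => ⟨hE p, p, p.2, hpE p⟩
  have hFc : ∀ p, F p ∈ crossedEdges D := fun p => ⟨hF p, p, p.2, hpF p⟩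
  have hcr : Fintype.card D.crossings = CR G := by
    rw [← hD, Drawing.cr, Set.ncard_eq_toFinset_card', Set.toFinset_card]
  let N : (V → Fin k) → ℕ := fun σ => (Finset.univ.filter fun p : D.crossings =>
    l (E p) ≠ σ (ψ (E p)) ∧ l (F p) ≠ σ (ψ (F p))).card
  have hN : ∀ σ, CR2 G ≤ N σ := by
    intro σ
    set E₂ : Set (Sym2 V) := {e ∈ crossedEdges D | l e = σ (ψ e)} with hE₂
    have hE₂G : E₂ ⊆ G.edgeSet := fun e he => he.1.1
    set G₂ : SimpleGraph V := SimpleGraph.fromEdgeSet E₂ with hG₂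
    have hG₂e : G₂.edgeSet = E₂ := by
      rw [hG₂, SimpleGraph.edgeSet_fromEdgeSet]
      refine Set.Subset.antisymm Set.sdiff_subset ?_
      intro f hf
      exact ⟨hf, G.not_isDiag_of_mem_edgeSet (hE₂G hf)⟩
    have hG₂G : G₂ ≤ G := by
      rw [← SimpleGraph.edgeSet_subset_edgeSet, hG₂e]
      exact hE₂G
    have hc2 : CR G₂ = 0 := by
      refine pseudo_CR G₂ ψ ?_ ?_
      · intro f hf
        rw [hG₂e] at hf
        exact hψ f hf.1
      · intro f hf f' hf' hff
        rw [hG₂e] at hf hf'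
        exact hinj f hf.1 f' hf'.1 hff (by rw [hf.2, hf'.2, hff])
    have hG₁G : G \ G₂ ≤ G := sdiff_le
    have h3 : (subE D hG₁G).crossings ⊆
        (((Finset.univ.filter fun p : D.crossings => l (E p) ≠ σ (ψ (E p)) ∧
          l (F p) ≠ σ (ψ (F p))).image Subtype.val : Finset ℂ) : Set ℂ) := by
      rintro p ⟨e', he', f', hf', hef, hp⟩
      have hp' : p ∈ (D.arc e' ∩ D.arc f') \ range D.pos := hp
      rw [SimpleGraph.edgeSet_sdiff, hG₂e] at he' hf'
      have hpC : p ∈ D.crossings := ⟨e', he'.1, f', hf'.1, hef, hp'⟩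
      have key : ∀ g ∈ crossedEdges D, p ∈ D.arc g → l g ≠ σ (ψ g) := by
        intro g hg hpg hl
        have hgE : g ∈ E₂ := ⟨hg, hl⟩
        have h4 : e' ≠ g := by
          rintro rfl
          exact he'.2 hgE
        have h5 : f' ≠ g := by
          rintro rfl
          exact hf'.2 hgE
        exact hp'.2 (D.no_triple e' he'.1 f' hf'.1 g hg.1 hef h4 h5 p hp'.1 hpg)
      rw [Finset.mem_coe, Finset.mem_image]
      refine ⟨⟨p, hpC⟩, ?_, rfl⟩
      rw [Finset.mem_filter]
      exact ⟨Finset.mem_univ _, key _ (hEc _) (hpE ⟨p, hpC⟩), key _ (hFc _) (hpF ⟨p, hpC⟩)⟩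
    have h4 : CR (G \ G₂) ≤ (subE D hG₁G).cr := Nat.sInf_le ⟨subE D hG₁G, rfl⟩
    have h5 : (subE D hG₁G).cr ≤ N σ := by
      refine (Set.ncard_le_ncard h3 (Finset.finite_toSet _)).trans ?_
      rw [Set.ncard_coe_finset]
      exact Finset.card_image_le
    have h7 : CR2 G ≤ CR (G \ G₂) + CR G₂ :=
      Nat.sInf_le ⟨G \ G₂, G₂, disjoint_sdiff_self_left, sdiff_sup_cancel hG₂G, rfl⟩
    omega
  have hsum : ∑ σ : V → Fin k, k ^ 2 * N σ =
      CR G * ((k - 1) ^ 2 * k ^ Fintype.card V) := by
    rw [← Finset.mul_sum]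
    have h1 : ∑ σ : V → Fin k, N σ = ∑ p : D.crossings,
        (Finset.univ.filter fun σ : V → Fin k => l (E p) ≠ σ (ψ (E p)) ∧
          l (F p) ≠ σ (ψ (F p))).card := by
      simp only [N, Finset.card_filter]
      exact Finset.sum_comm
    rw [h1, Finset.mul_sum, Finset.sum_congr rfl fun p _ => count (hne p) (l (E p)) (l (F p)),
      Finset.sum_const, Finset.card_univ, hcr, smul_eq_mul]
  have hle : k ^ Fintype.card V * (k ^ 2 * CR2 G) ≤
      k ^ Fintype.card V * ((k - 1) ^ 2 * CR G) := by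
    calc k ^ Fintype.card V * (k ^ 2 * CR2 G) = ∑ _σ : V → Fin k, k ^ 2 * CR2 G := by
          rw [Finset.sum_const, Finset.card_univ, Fintype.card_fun, Fintype.card_fin, smul_eq_mul]
      _ ≤ ∑ σ : V → Fin k, k ^ 2 * N σ :=
          Finset.sum_le_sum fun σ _ => Nat.mul_le_mul_left _ (hN σ)
      _ = _ := by
          rw [hsum]
          ring
  exact Nat.le_of_mul_le_mul_left hle (Nat.pow_pos hk)

end H90.BX
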