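import Pool.Agent.H90.BP.SlotA

/-!
# [H90 BP SLOTB] `sparse`: see the header of Slot.lean
-/

set_option autoImplicit false

open Set
open scoped Classical

noncomputable section

namespace H90.BX

open H29.BP

theorem sparse {V : Type} [Finite V] {G : SimpleGraph V} (D : Drawing G) (hD : D.cr = CR G) (k : ℕ)
    (hk : 1 ≤ k)
    (h : ∀ W : Set V, {e ∈ crossedEdges D | ∀ v ∈ e, v ∈ W}.ncard ≤ k * W.ncard) :
    k ^ 2 * CR2 G ≤ (k - 1) ^ 2 * CR G := by
  have := Fintype.ofFinite V
  set S : Finset (Sym2 V) := (Set.toFinite (crossedEdges D)).toFinset with hS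
  have hmS : ∀ e, e ∈ S ↔ e ∈ crossedEdges D := fun e => by rw [hS, Set.Finite.mem_toFinset]
  let t : S → Finset (V × Fin k) := fun e =>
    (Finset.univ.filter fun v : V => v ∈ (e : Sym2 V)) ×ˢ Finset.univ
  have hall : ∀ s : Finset S, s.card ≤ (s.biUnion t).card := by
    intro s
    let W : Finset V := Finset.univ.filter fun v => ∃ e ∈ s, v ∈ (e : Sym2 V)
    have h1 : W ×ˢ (Finset.univ : Finset (Fin k)) ⊆ s.biUnion t := by
      rintro ⟨v, i⟩ hvi
      rw [Finset.mem_product, Finset.mem_filter] at hvi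
      obtain ⟨⟨-, e, he, hve⟩, -⟩ := hvi
      rw [Finset.mem_biUnion]
      exact ⟨e, he, Finset.mem_product.2
        ⟨Finset.mem_filter.2 ⟨Finset.mem_univ _, hve⟩, Finset.mem_univ _⟩⟩
    have h2 := Finset.card_le_card h1
    rw [Finset.card_product, Finset.card_univ, Fintype.card_fin] at h2
    have h3 := h (W : Set V)
    rw [Set.ncard_coe_finset] at h3
    have h5 : ((s.map (Function.Embedding.subtype _) : Finset (Sym2 V)) : Set (Sym2 V)) ⊆
        {e ∈ crossedEdges D | ∀ v ∈ e, v ∈ (W : Set V)} := by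
      intro e he
      rw [Finset.mem_coe, Finset.mem_map] at he
      obtain ⟨q, hq, rfl⟩ := he
      exact ⟨(hmS _).1 q.2, fun v hv =>
        Finset.mem_coe.2 (Finset.mem_filter.2 ⟨Finset.mem_univ _, q, hq, hv⟩)⟩
    have h6 := Set.ncard_le_ncard h5 (Set.toFinite _)
    rw [Set.ncard_coe_finset, Finset.card_map] at h6
    calc s.card ≤ k * W.card := h6.trans h3
      _ = W.card * k := mul_comm _ _
      _ ≤ (s.biUnion t).card := h2
  obtain ⟨f, hfi, hft⟩ := (Finset.all_card_le_biUnion_card_iff_exists_injective t).1 hall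
  refine slots D hD k hk (fun e => if he : e ∈ S then (f ⟨e, he⟩).1 else (Quot.out e).1)
    (fun e => if he : e ∈ S then (f ⟨e, he⟩).2 else ⟨0, hk⟩) ?_ ?_
  · intro e he
    have he' := (hmS e).2 he
    rw [dif_pos he']
    exact (Finset.mem_filter.1 (Finset.mem_product.1 (hft ⟨e, he'⟩)).1).2
  · intro e he g hg h1 h2
    have he' := (hmS e).2 he
    have hg' := (hmS g).2 hg
    beta_reduce at h1 h2
    rw [dif_pos he', dif_pos hg'] at h1 h2
    exact congrArg Subtype.val (hfi (Prod.ext h1 h2))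

end H90.BX
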