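import Pool.Agent.H90.BP.Slot

/-!
# [H90 BP SLOTC] `span_of_deg`: see the header of Slot.lean
-/

set_option autoImplicit false

open Set
open scoped Classical

noncomputable section

namespace H90.BX

open H29.BP

theorem span_of_deg {V : Type} [Finite V] {G : SimpleGraph V} (D : Drawing G) (k : ℕ)
    (h : ∀ v : V, {e ∈ crossedEdges D | v ∈ e}.ncard ≤ 2 * k) (W : Set V) :
    {e ∈ crossedEdges D | ∀ v ∈ e, v ∈ W}.ncard ≤ k * W.ncard := by
  have : Fintype V := Fintype.ofFinite V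
  have : Fintype (Sym2 V) := Fintype.ofFinite _
  obtain ⟨S, hS⟩ : ∃ S : Finset (Sym2 V), S = Finset.univ.filter (fun e => e ∈ crossedEdges D ∧ ∀ v ∈ e, v ∈ W) :=
    ⟨_, rfl⟩
  obtain ⟨U, hU⟩ : ∃ U : Finset V, U = Finset.univ.filter (fun v => v ∈ W) := ⟨_, rfl⟩
  have hSm : ∀ e, e ∈ S ↔ e ∈ crossedEdges D ∧ ∀ v ∈ e, v ∈ W := by
    intro e
    rw [hS, Finset.mem_filter]
    exact ⟨fun h => h.2, fun h => ⟨Finset.mem_univ _, h⟩⟩
  have hUm : ∀ v, v ∈ U ↔ v ∈ W := by
    intro v
    rw [hU, Finset.mem_filter]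
    exact ⟨fun h => h.2, fun h => ⟨Finset.mem_univ _, h⟩⟩
  have e1 : {e ∈ crossedEdges D | ∀ v ∈ e, v ∈ W}.ncard = S.card := by
    rw [← Set.ncard_coe_finset]
    congr 1
    ext e
    rw [Finset.mem_coe, hSm]
    exact Iff.rfl
  have e2 : W.ncard = U.card := by
    rw [← Set.ncard_coe_finset]
    congr 1
    ext v
    rw [Finset.mem_coe, hUm]
  have e3 : ∑ v ∈ U, (S.filter fun e => v ∈ e).card = ∑ e ∈ S, (U.filter fun v => v ∈ e).card := by
    simp only [Finset.card_filter]
    exact Finset.sum_comm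
  have e4 : ∀ e ∈ S, (U.filter fun v => v ∈ e).card = 2 := by
    intro e he
    obtain ⟨hc, hW⟩ := (hSm e).1 he
    have hG : e ∈ G.edgeSet := hc.1
    induction e with
    | _ a b =>
      have hab : a ≠ b := (G.mem_edgeSet.1 hG).ne
      have h5 : (U.filter fun v => v ∈ s(a, b)) = {a, b} := by
        ext v
        rw [Finset.mem_filter, Finset.mem_insert, Finset.mem_singleton, hUm, Sym2.mem_iff]
        constructor
        · exact fun h => h.2
        · intro h
          exact ⟨hW v (Sym2.mem_iff.2 h), h⟩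
      rw [h5, Finset.card_pair hab]
  have e5 : ∀ v ∈ U, (S.filter fun e => v ∈ e).card ≤ 2 * k := by
    intro v _
    refine le_trans ?_ (h v)
    rw [← Set.ncard_coe_finset]
    refine Set.ncard_le_ncard ?_ (Set.toFinite _)
    intro e he
    rw [Finset.mem_coe, Finset.mem_filter, hSm] at he
    exact ⟨he.1.1, he.2⟩
  rw [Finset.sum_congr rfl e4, Finset.sum_const, smul_eq_mul] at e3
  have e6 := Finset.sum_le_sum e5
  rw [Finset.sum_const, smul_eq_mul, e3] at e6
  rw [e1, e2]
  nlinarith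

end H90.BX
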